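import Pool.Agent.LibBD85.Disp

/-! The Busemann character of the centraliser of an isometry with attained positive displacement. -/

namespace LibBD85

open Filter Topology

variable {G : Type*} [Group G] {X : Type*} [MetricSpace X] [MulAction G X] [IsIsometricSMul G X] [Nonempty X]

/-- the bilinear form: `2 * bil g t = |g t|^2 - |g|^2 - |t|^2`. -/
noncomputable def bil (X : Type*) [MetricSpace X] [MulAction G X] (g t : G) : ℝ :=
  (disp X (g * t) ^ 2 - disp X g ^ 2 - disp X t ^ 2) / 2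

theorem bil_inv (hX : CN X) (g t : G) (hc : Commute g t) : bil X g⁻¹ t = - bil X g t := by
  have := para hX g t hc
  unfold bil
  rw [disp_inv]
  linarith

section axis

variable (hX : CN X) (t : G) (x₀ : X) (hx₀ : dist x₀ (t • x₀) = disp X t)

include hX hx₀ in
theorem axis_dist (n : ℕ) : dist x₀ (t ^ n • x₀) = n * disp X t := by
  apply le_antisymm
  · rw [← hx₀]; exact dist_pow_le t x₀ n
  · exact pow_lower hX t x₀ n

include hX hx₀ in
theorem bus_exists (y : X) : ∃ b : ℝ, Tendsto (fun n : ℕ => dist y (t ^ n • x₀) - n * disp X t) atTop (𝓝 b) := by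
  refine ⟨_, tendsto_atTop_ciInf ?_ ?_⟩
  · apply antitone_nat_of_succ_le
    intro n
    have h1 := dist_triangle y (t ^ n • x₀) (t ^ (n + 1) • x₀)
    have h2 : dist (t ^ n • x₀) (t ^ (n + 1) • x₀) = disp X t := by
      rw [pow_succ, mul_smul, dist_smul, hx₀]
    push_cast
    linarith
  · refine ⟨- dist x₀ y, ?_⟩
    rintro _ ⟨n, rfl⟩
    have h1 := dist_triangle x₀ y (t ^ n • x₀)
    have h2 := axis_dist hX t x₀ hx₀ n
    show _ ≤ dist y (t ^ n • x₀) - n * disp X t
    linarith

/-- Busemann function. -/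
noncomputable def bus (y : X) : ℝ := (bus_exists hX t x₀ hx₀ y).choose

theorem bus_spec (y : X) :
    Tendsto (fun n : ℕ => dist y (t ^ n • x₀) - n * disp X t) atTop (𝓝 (bus hX t x₀ hx₀ y)) :=
  (bus_exists hX t x₀ hx₀ y).choose_spec

theorem bus_base : bus hX t x₀ hx₀ x₀ = 0 := by
  apply tendsto_nhds_unique (bus_spec hX t x₀ hx₀ x₀)
  have : (fun n : ℕ => dist x₀ (t ^ n • x₀) - n * disp X t) = fun _ => 0 := by
    ext n; rw [axis_dist hX t x₀ hx₀ n]; ring
  rw [this]; exact tendsto_const_nhds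

theorem bus_inv (ht : 0 < disp X t) (g : G) (hc : Commute g t) (y z : X) :
    bus hX t x₀ hx₀ (g • y) - bus hX t x₀ hx₀ (g • z) = bus hX t x₀ hx₀ y - bus hX t x₀ hx₀ z := by
  have l1 := (bus_spec hX t x₀ hx₀ (g • y)).sub (bus_spec hX t x₀ hx₀ (g • z))
  have l2 := (bus_spec hX t x₀ hx₀ y).sub (bus_spec hX t x₀ hx₀ z)
  have l3 := l1.sub l2
  suffices hs : Tendsto (fun n : ℕ => (dist (g • y) (t ^ n • x₀) - n * disp X t -
      (dist (g • z) (t ^ n • x₀) - n * disp X t)) - (dist y (t ^ n • x₀) - n * disp X t -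
      (dist z (t ^ n • x₀) - n * disp X t))) atTop (𝓝 0) by
    have := tendsto_nhds_unique l3 hs
    linarith
  set D := dist x₀ (g⁻¹ • x₀) with hD
  set K := dist y z ^ 2 + D ^ 2 + dist y z * (2 * D) with hK
  -- the sum S n = d(y, p) + d(z, p) tends to infinity
  have hS : Tendsto (fun n : ℕ => dist y (t ^ n • x₀) + dist z (t ^ n • x₀)) atTop atTop := by
    have h1 : Tendsto (fun n : ℕ => (n : ℝ) * (2 * disp X t) + (- dist x₀ y - dist x₀ z)) atTop atTop := by
      apply tendsto_atTop_add_const_right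
      exact Tendsto.atTop_mul_const (by positivity) tendsto_natCast_atTop_atTop
    apply tendsto_atTop_mono _ h1
    intro n
    have h2 := dist_triangle x₀ y (t ^ n • x₀)
    have h3 := dist_triangle x₀ z (t ^ n • x₀)
    have h4 := axis_dist hX t x₀ hx₀ n
    linarith
  have hlim : Tendsto (fun n : ℕ => K / (dist y (t ^ n • x₀) + dist z (t ^ n • x₀))) atTop (𝓝 0) :=
    Tendsto.div_atTop tendsto_const_nhds hS
  apply squeeze_zero_norm' _ hlim
  filter_upwards [hS.eventually_gt_atTop 0] with n hn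
  rw [Real.norm_eq_abs, le_div_iff₀ hn]
  set p := t ^ n • x₀ with hp
  set p' := t ^ n • g⁻¹ • x₀ with hp'
  have e1 : ∀ w : X, dist (g • w) p = dist w p' := by
    intro w
    rw [hp, hp', ← mul_smul, ← ((hc.inv_left).pow_right n).eq, mul_smul, ← dist_smul g w, smul_inv_smul]
  rw [e1, e1]
  have e2 : dist p p' = D := by rw [hp, hp', dist_smul]
  have f1 := four_point hX y z p' p
  have f2 := four_point hX z y p' p
  rw [dist_comm p' p, e2] at f1 f2
  rw [dist_comm p y, ] at f1
  rw [dist_comm p z, dist_comm z y] at f2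
  have g1 := dist_triangle y p p'
  have g2 := dist_triangle y p' p
  have g3 := dist_triangle z p p'
  have g4 := dist_triangle z p' p
  rw [dist_comm p' p] at g2 g4
  rw [e2] at g1 g2 g3 g4
  have t1 := dist_triangle y z p'
  have t2 := dist_triangle z y p'
  rw [dist_comm z y] at t2
  -- rename
  generalize dist y p = a at *
  generalize dist z p = b at *
  generalize dist y p' = a' at *
  generalize dist z p' = b' at *
  have hyz : 0 ≤ dist y z := dist_nonneg
  generalize dist y z = c at *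
  have hD0 : 0 ≤ D := dist_nonneg
  have q1 : |(a' - b') * ((a' + b') - (a + b))| ≤ c * (2 * D) := by
    rw [abs_mul]
    apply mul_le_mul _ _ (abs_nonneg _) hyz
    · rw [abs_le]; constructor <;> linarith
    · rw [abs_le]; constructor <;> linarith
  rw [abs_le] at q1
  have q2 : |(a' - b' - (a - b)) * (a + b)| ≤ K := by
    rw [abs_le]
    constructor <;> nlinarith
  rw [abs_mul, abs_of_pos hn] at q2
  have e3 : a' - n * disp X t - (b' - n * disp X t) - (a - n * disp X t - (b - n * disp X t)) =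
    a' - b' - (a - b) := by ring
  rw [e3]
  exact q2

/-- the Busemann character. -/
noncomputable def chi (g : G) : ℝ := bus hX t x₀ hx₀ (g⁻¹ • x₀)

theorem chi_mul (ht : 0 < disp X t) (g h : G) (hh : Commute h t) :
    chi hX t x₀ hx₀ (g * h) = chi hX t x₀ hx₀ g + chi hX t x₀ hx₀ h := by
  have := bus_inv hX t x₀ hx₀ ht h⁻¹ hh.inv_left (g⁻¹ • x₀) x₀
  rw [bus_base] at this
  unfold chi
  rw [mul_inv_rev, mul_smul]
  linarith

theorem chi_ge (ht : 0 < disp X t) (g : G) (hc : Commute g t) :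
    bil X g t ≤ chi hX t x₀ hx₀ g * disp X t := by
  set ℓ := disp X t with hℓ
  have l1 := bus_spec hX t x₀ hx₀ (g⁻¹ • x₀)
  rw [← hℓ] at l1
  have l2 : Tendsto (fun n : ℕ => (dist (g⁻¹ • x₀) (t ^ n • x₀) - n * ℓ) / n + 2 * ℓ) atTop (𝓝 (0 + 2 * ℓ)) := by
    apply Tendsto.add_const
    exact l1.div_atTop tendsto_natCast_atTop_atTop
  have l3 := l1.mul l2
  have l4 : Tendsto (fun n : ℕ => (disp X g ^ 2 / n + 2 * bil X g t : ℝ)) atTop (𝓝 (0 + 2 * bil X g t)) := by
    apply Tendsto.add_const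
    exact tendsto_const_nhds.div_atTop tendsto_natCast_atTop_atTop
  have l5 := le_of_tendsto_of_tendsto l4 l3 (by
    filter_upwards [eventually_gt_atTop 0] with n hn
    have hn' : (0 : ℝ) < n := by exact_mod_cast hn
    have h1 := quad hX g t hc n
    have h2 : disp X (g * t ^ n) ≤ dist (g⁻¹ • x₀) (t ^ n • x₀) := by
      have := disp_le (X := X) (g * t ^ n) (x₀)
      rwa [mul_smul, ← dist_smul g⁻¹, inv_smul_smul] at this
    have h3 : disp X (g * t ^ n) ^ 2 ≤ dist (g⁻¹ • x₀) (t ^ n • x₀) ^ 2 :=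
      pow_le_pow_left₀ (disp_nonneg _) h2 2
    generalize dist (g⁻¹ • x₀) (t ^ n • x₀) = d at *
    have e1 : (d - n * ℓ) * ((d - n * ℓ) / n + 2 * ℓ) = (d ^ 2 - n ^ 2 * ℓ ^ 2) / n := by
      field_simp
      ring
    have e2 : disp X g ^ 2 / n + 2 * bil X g t = (disp X g ^ 2 + n * (2 * bil X g t)) / n := by
      field_simp
    rw [e1, e2]
    apply div_le_div_of_nonneg_right _ hn'.le
    have e3 : 2 * bil X g t = disp X (g * t) ^ 2 - disp X g ^ 2 - disp X t ^ 2 := by
      unfold bil; ring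
    rw [e3]
    rw [← hℓ] at h1 ⊢
    linarith)
  unfold chi
  linarith

theorem chi_eq (ht : 0 < disp X t) (g : G) (hc : Commute g t) :
    chi hX t x₀ hx₀ g * disp X t = bil X g t := by
  apply le_antisymm _ (chi_ge hX t x₀ hx₀ ht g hc)
  have h1 := chi_ge hX t x₀ hx₀ ht g⁻¹ hc.inv_left
  rw [bil_inv hX g t hc] at h1
  have h2 := chi_mul hX t x₀ hx₀ ht g g⁻¹ hc.inv_left
  have h3 : chi hX t x₀ hx₀ (g * g⁻¹) = 0 := by
    unfold chi; rw [mul_inv_cancel, inv_one, one_smul, bus_base]
  rw [h3] at h2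
  nlinarith

end axis

/-- additivity of the bilinear form on the centraliser. -/
theorem bil_mul (hX : CN X) (t : G) (ht : 0 < disp X t) (hat : ∃ x : X, dist x (t • x) = disp X t)
    (g h : G) (hg : Commute g t) (hh : Commute h t) :
    bil X (g * h) t = bil X g t + bil X h t := by
  obtain ⟨x₀, hx₀⟩ := hat
  rw [← chi_eq hX t x₀ hx₀ ht g hg, ← chi_eq hX t x₀ hx₀ ht h hh,
    ← chi_eq hX t x₀ hx₀ ht (g * h) (hg.mul_left hh), chi_mul hX t x₀ hx₀ ht g h hh]
  ring

end LibBD85
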