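import Mathlib

/-! CAT(0) spaces, CAT(0) groups, mapping tori of free group automorphisms. -/

namespace LibBD85

/-- CAT(0) space: a geodesic metric space with the Bruhat-Tits inequality for every midpoint. -/
structure IsCAT0 (X : Type*) [MetricSpace X] : Prop where
  geodesic : ∀ x y : X, ∃ γ : ℝ → X, γ 0 = x ∧ γ (dist x y) = y ∧
    ∀ s ∈ Set.Icc 0 (dist x y), ∀ t ∈ Set.Icc 0 (dist x y), dist (γ s) (γ t) = |s - t|
  cn : ∀ q r m : X, dist q m = dist q r / 2 → dist r m = dist q r / 2 →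
    ∀ p : X, dist p m ^ 2 ≤ (dist p q ^ 2 + dist p r ^ 2) / 2 - dist q r ^ 2 / 4

/-- `G` acts properly and cocompactly by isometries on a nonempty CAT(0) space. -/
def CAT0Group (G : Type*) [Group G] : Prop :=
  ∃ (X : Type) (_ : MetricSpace X) (_ : MulAction G X), Nonempty X ∧ IsCAT0 X ∧
    (∀ (g : G) (x y : X), dist (g • x) (g • y) = dist x y) ∧
    (∀ x : X, ∃ r > 0, {g : G | ∃ y ∈ Metric.ball x r, g • y ∈ Metric.ball x r}.Finite) ∧
    (∃ K : Set X, IsCompact K ∧ ∀ x : X, ∃ g : G, g • x ∈ K)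

end LibBD85
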