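import Pool.Agent.LibBD85.Geo

/-! The infimal displacement of an isometry of a CN space. -/

namespace LibBD85

open Filter Topology

variable {G : Type*} [Group G] {X : Type*} [MetricSpace X] [MulAction G X] [IsIsometricSMul G X]

/-- infimal displacement. -/
noncomputable def disp (X : Type*) [MetricSpace X] [MulAction G X] (g : G) : ℝ := ⨅ x : X, dist x (g • x)

theorem bdd (g : G) : BddBelow (Set.range fun x : X => dist x (g • x)) :=
  ⟨0, by rintro _ ⟨x, rfl⟩; exact dist_nonneg⟩

theorem disp_le (g : G) (x : X) : disp X g ≤ dist x (g • x) := ciInf_le (bdd g) x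

theorem disp_nonneg (g : G) : 0 ≤ disp X g := Real.iInf_nonneg fun _ => dist_nonneg

theorem exists_lt [Nonempty X] (g : G) {ε : ℝ} (hε : 0 < ε) : ∃ x : X, dist x (g • x) < disp X g + ε := by
  have := exists_lt_of_ciInf_lt (f := fun x : X => dist x (g • x)) (a := disp X g + ε) (by
    show disp X g < _
    linarith)
  exact this

theorem disp_conj (g h : G) : disp X (h * g * h⁻¹) = disp X g := by
  unfold disp
  apply Equiv.iInf_congr (MulAction.toPerm h⁻¹)
  intro x
  show dist (h⁻¹ • x) (g • h⁻¹ • x) = dist x ((h * g * h⁻¹) • x)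
  rw [← dist_smul h, smul_inv_smul, ← smul_assoc, ← smul_assoc, smul_eq_mul, smul_eq_mul, mul_assoc]

theorem disp_inv (g : G) : disp X g⁻¹ = disp X g := by
  unfold disp
  congr 1
  ext x
  rw [← dist_smul g, smul_inv_smul, dist_comm]

theorem dist_pow_le (g : G) (x : X) (n : ℕ) : dist x (g ^ n • x) ≤ n * dist x (g • x) := by
  induction n with
  | zero => simp
  | succ n ih =>
    have h1 := dist_triangle x (g ^ n • x) (g ^ (n + 1) • x)
    have h2 : dist (g ^ n • x) (g ^ (n + 1) • x) = dist x (g • x) := by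
      rw [pow_succ, mul_smul, dist_smul]
    push_cast
    linarith

theorem dist_pow_le' (g : G) (x y : X) (n : ℕ) : dist x (g ^ n • x) ≤ 2 * dist x y + n * dist y (g • y) := by
  have h1 := dist_triangle x y (g ^ n • x)
  have h2 := dist_triangle y (g ^ n • y) (g ^ n • x)
  have h3 : dist (g ^ n • y) (g ^ n • x) = dist x y := by rw [dist_smul, dist_comm]
  have h4 := dist_pow_le g y n
  linarith

theorem disp_sq_ge (h : CN X) (g : G) (y : X) : 2 * disp X g ≤ dist y (g ^ 2 • y) := by
  obtain ⟨m, n, a1, a2, b1, b2, hmn⟩ := mid_mid h (g • y) y (g • g • y)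
  -- n is the translate of m
  have hn : n = g • m := by
    obtain ⟨c, hc⟩ := h (g • y) (g • g • y)
    have e1 : dist (g • y) (g • g • y) = dist y (g • y) := dist_smul g _ _
    have key : ∀ z : X, dist (g • y) z = dist (g • y) (g • g • y) / 2 →
        dist (g • g • y) z = dist (g • y) (g • g • y) / 2 → z = c := by
      intro z h1 h2
      have h3 := hc z
      rw [dist_comm z (g • y), dist_comm z (g • g • y), h1, h2] at h3
      have h4 : dist z c ^ 2 ≤ 0 := by nlinarith
      have h5 : dist z c = 0 := by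
        have := sq_nonneg (dist z c)
        have h6 : dist z c ^ 2 = 0 := le_antisymm h4 this
        exact pow_eq_zero_iff (two_ne_zero) |>.mp h6
      exact dist_eq_zero.mp h5
    rw [key n b1 b2]
    symm
    apply key
    · rw [dist_smul, e1, a2, dist_comm]
    · rw [dist_smul, e1, a1, dist_comm]
  have h1 := disp_le g m
  rw [← hn] at h1
  have h2 : dist y (g • g • y) = dist y (g ^ 2 • y) := by rw [pow_two, mul_smul]
  linarith

variable [Nonempty X]

theorem disp_pow_two (h : CN X) (g : G) : disp X (g ^ 2) = 2 * disp X g := by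
  apply le_antisymm
  · apply le_of_forall_pos_le_add
    intro ε hε
    obtain ⟨x, hx⟩ := exists_lt (X := X) g (half_pos hε)
    have h1 := disp_le (X := X) (g ^ 2) x
    have h2 := dist_pow_le g x 2
    push_cast at h2
    linarith
  · exact le_ciInf fun y => disp_sq_ge h g y

theorem disp_pow_two_pow (h : CN X) (g : G) (k : ℕ) : disp X (g ^ (2 ^ k)) = 2 ^ k * disp X g := by
  induction k with
  | zero => simp
  | succ k ih =>
    rw [pow_succ, pow_mul, disp_pow_two h, ih]
    ring

/-- the displacement of powers along the sequence of powers of two. -/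
theorem tendsto_two_pow (h : CN X) (g : G) (x : X) :
    Tendsto (fun k : ℕ => dist x (g ^ (2 ^ k) • x) / 2 ^ k) atTop (𝓝 (disp X g)) := by
  rw [Metric.tendsto_atTop]
  intro ε hε
  obtain ⟨y, hy⟩ := exists_lt (X := X) g (half_pos hε)
  have h2 : Tendsto (fun k : ℕ => (2 * dist x y) / (2 : ℝ) ^ k) atTop (𝓝 0) := by
    apply Tendsto.div_atTop tendsto_const_nhds
    exact tendsto_pow_atTop_atTop_of_one_lt (by norm_num)
  rw [Metric.tendsto_atTop] at h2
  obtain ⟨N, hN⟩ := h2 (ε / 2) (half_pos hε)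
  refine ⟨N, fun k hk => ?_⟩
  have h3 := hN k hk
  rw [Real.dist_eq, sub_zero, abs_lt] at h3
  have hp : (0 : ℝ) < 2 ^ k := by positivity
  have h4 := dist_pow_le' g x y (2 ^ k)
  have h5 : dist x (g ^ (2 ^ k) • x) / 2 ^ k ≤ (2 * dist x y) / 2 ^ k + dist y (g • y) := by
    rw [div_le_iff₀ hp, add_mul, div_mul_cancel₀ _ hp.ne']
    push_cast at h4
    linarith
  have h6 : disp X g ≤ dist x (g ^ (2 ^ k) • x) / 2 ^ k := by
    rw [le_div_iff₀ hp, mul_comm, ← disp_pow_two_pow h]
    exact disp_le _ x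
  rw [Real.dist_eq, abs_lt]
  constructor <;> linarith

theorem disp_pow (h : CN X) (g : G) (n : ℕ) : disp X (g ^ n) = n * disp X g := by
  obtain ⟨x⟩ := (inferInstance : Nonempty X)
  apply le_antisymm
  · apply le_of_forall_pos_le_add
    intro ε hε
    rcases Nat.eq_zero_or_pos n with rfl | hn
    · have := disp_le (X := X) (g ^ 0) x
      simp at this ⊢
      linarith
    · have hn' : (0 : ℝ) < n := by exact_mod_cast hn
      obtain ⟨x, hx⟩ := exists_lt (X := X) g (div_pos hε hn')
      have h1 := disp_le (X := X) (g ^ n) x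
      have h2 := dist_pow_le g x n
      have h3 : n * dist x (g • x) ≤ n * (disp X g + ε / n) :=
        mul_le_mul_of_nonneg_left hx.le hn'.le
      have h4 : n * (disp X g + ε / n) = n * disp X g + ε := by
        field_simp
      linarith
  · obtain ⟨j, hj⟩ : ∃ j, n ≤ 2 ^ j := ⟨n, Nat.lt_two_pow_self.le⟩
    -- limits
    have l1 := tendsto_two_pow h (g ^ n) x
    have l2 := tendsto_two_pow h (g ^ (2 ^ j - n)) x
    have l3 := tendsto_two_pow h (g ^ (2 ^ j)) x
    have l4 := l1.add l2
    have h5 : disp X (g ^ (2 ^ j)) ≤ disp X (g ^ n) + disp X (g ^ (2 ^ j - n)) := by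
      apply le_of_tendsto_of_tendsto l3 l4
      filter_upwards with k
      have hp : (0 : ℝ) < 2 ^ k := by positivity
      rw [← add_div]
      apply div_le_div_of_nonneg_right _ hp.le
      have e : (g ^ (2 ^ j)) ^ (2 ^ k) = (g ^ n) ^ (2 ^ k) * (g ^ (2 ^ j - n)) ^ (2 ^ k) := by
        have e0 : 2 ^ j * 2 ^ k = n * 2 ^ k + (2 ^ j - n) * 2 ^ k := by
          rw [← add_mul, Nat.add_sub_cancel' hj]
        rw [← pow_mul, e0, pow_add, pow_mul, pow_mul]
      rw [e, mul_smul]
      have t := dist_triangle x ((g ^ n) ^ (2 ^ k) • x) ((g ^ n) ^ (2 ^ k) • (g ^ (2 ^ j - n)) ^ (2 ^ k) • x)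
      rw [dist_smul] at t
      exact t
    rw [disp_pow_two_pow h] at h5
    have h6 : disp X (g ^ (2 ^ j - n)) ≤ (2 ^ j - n : ℕ) * disp X g := by
      apply le_of_forall_pos_le_add
      intro ε hε
      rcases Nat.eq_zero_or_pos (2 ^ j - n) with h0 | hn
      · rw [h0]
        have := disp_le (X := X) (g ^ 0) x
        simp at this ⊢
        linarith
      · have hn' : (0 : ℝ) < (2 ^ j - n : ℕ) := by exact_mod_cast hn
        obtain ⟨x, hx⟩ := exists_lt (X := X) g (div_pos hε hn')
        have h1 := disp_le (X := X) (g ^ (2 ^ j - n)) x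
        have h2 := dist_pow_le g x (2 ^ j - n)
        have h3 : (2 ^ j - n : ℕ) * dist x (g • x) ≤ (2 ^ j - n : ℕ) * (disp X g + ε / (2 ^ j - n : ℕ)) :=
          mul_le_mul_of_nonneg_left hx.le hn'.le
        have h4 : (2 ^ j - n : ℕ) * (disp X g + ε / (2 ^ j - n : ℕ)) = (2 ^ j - n : ℕ) * disp X g + ε := by
          rw [mul_add, mul_div_cancel₀ _ hn'.ne']
        linarith
    rw [Nat.cast_sub hj] at h6
    push_cast at h6
    linarith

theorem pow_lower (h : CN X) (g : G) (x : X) (n : ℕ) : n * disp X g ≤ dist x (g ^ n • x) := by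
  rw [← disp_pow h]
  exact disp_le _ x

/-- the parallelogram inequality for commuting isometries. -/
theorem para_le (hX : CN X) (g h : G) (hc : Commute g h) :
    disp X (g * h) ^ 2 + disp X (g⁻¹ * h) ^ 2 ≤ 2 * disp X g ^ 2 + 2 * disp X h ^ 2 := by
  obtain ⟨x⟩ := (inferInstance : Nonempty X)
  have l1 := (tendsto_two_pow hX g x).pow 2
  have l2 := (tendsto_two_pow hX h x).pow 2
  have l3 := (tendsto_two_pow hX (g * h) x).pow 2
  have l4 := (tendsto_two_pow hX (g⁻¹ * h) x).pow 2
  apply le_of_tendsto_of_tendsto (l3.add l4) ((l1.const_mul 2).add (l2.const_mul 2))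
  filter_upwards with k
  set n := 2 ^ k with hn
  have hp : (0 : ℝ) < 2 ^ k := by positivity
  have f := four_point hX x (g ^ n • x) (g ^ n • h ^ n • x) (h ^ n • x)
  have e1 : dist x (g ^ n • h ^ n • x) = dist x ((g * h) ^ n • x) := by
    rw [hc.mul_pow, mul_smul]
  have e2 : dist (g ^ n • x) (h ^ n • x) = dist x ((g⁻¹ * h) ^ n • x) := by
    rw [(hc.inv_left).mul_pow, mul_smul, ← dist_smul (g ^ n) x, inv_pow, smul_inv_smul]
  have e3 : dist (g ^ n • x) (g ^ n • h ^ n • x) = dist x (h ^ n • x) := dist_smul _ _ _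
  have e4 : dist (g ^ n • h ^ n • x) (h ^ n • x) = dist x (g ^ n • x) := by
    rw [← mul_smul, (hc.pow_pow n n).eq, mul_smul, dist_smul, dist_comm]
  rw [e1, e2, e3, e4, dist_comm (h ^ n • x) x] at f
  rw [div_pow, div_pow, div_pow, div_pow, ← add_div, ← mul_div_assoc, ← mul_div_assoc, ← add_div]
  apply div_le_div_of_nonneg_right _ (by positivity)
  linarith

/-- the parallelogram law for commuting isometries. -/
theorem para (hX : CN X) (g h : G) (hc : Commute g h) :
    disp X (g * h) ^ 2 + disp X (g⁻¹ * h) ^ 2 = 2 * disp X g ^ 2 + 2 * disp X h ^ 2 := by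
  apply le_antisymm (para_le hX g h hc)
  have hc2 : Commute (g * h) (g⁻¹ * h) := by
    have h1 : Commute g (g⁻¹ * h) := (Commute.refl g).inv_right.mul_right hc
    have h2 : Commute h (g⁻¹ * h) := (hc.symm.inv_right).mul_right (Commute.refl h)
    exact h1.mul_left h2
  have k := para_le hX (g * h) (g⁻¹ * h) hc2
  have e1 : g * h * (g⁻¹ * h) = h ^ 2 := by
    have : g * h = h * g := hc.eq
    rw [this, mul_assoc, mul_inv_cancel_left, pow_two]
  have e2 : (g * h)⁻¹ * (g⁻¹ * h) = (g ^ 2)⁻¹ := by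
    have h1 : g⁻¹ * h = h * g⁻¹ := (hc.inv_left).eq
    rw [h1, mul_inv_rev, pow_two, mul_inv_rev]
    have h2 : h⁻¹ * g⁻¹ = g⁻¹ * h⁻¹ := (hc.inv_left.inv_right).eq.symm
    rw [h2, mul_assoc, inv_mul_cancel_left]
  rw [e1, e2, disp_inv, disp_pow_two hX, disp_pow_two hX] at k
  nlinarith

/-- squares of displacements of `g t ^ n`. -/
theorem quad (hX : CN X) (g t : G) (hc : Commute g t) (n : ℕ) :
    disp X (g * t ^ n) ^ 2 = disp X g ^ 2 + n * (disp X (g * t) ^ 2 - disp X g ^ 2 - disp X t ^ 2)
      + n ^ 2 * disp X t ^ 2 := by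
  induction n using Nat.strong_induction_on with
  | _ n ih =>
    match n with
    | 0 => simp
    | 1 => simp; ring
    | (m + 2) =>
      have i1 := ih m (by omega)
      have i2 := ih (m + 1) (by omega)
      have hc2 : Commute t (g * t ^ (m + 1)) := hc.symm.mul_right ((Commute.refl t).pow_right _)
      have p := para hX t (g * t ^ (m + 1)) hc2
      have e1 : t * (g * t ^ (m + 1)) = g * t ^ (m + 2) := by
        rw [hc2.eq, mul_assoc, ← pow_succ]
      have e2 : t⁻¹ * (g * t ^ (m + 1)) = g * t ^ m := by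
        rw [(hc2.inv_left).eq, mul_assoc, pow_succ, mul_assoc, mul_inv_cancel, mul_one]
      rw [e1, e2] at p
      rw [i1, i2] at p
      push_cast at p ⊢
      nlinarith

end LibBD85
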