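import Mathlib

/-! CN spaces, isometric actions, the infimal displacement, the parallelogram law. -/

namespace LibBD85

open Filter Topology

/-- the Bruhat-Tits inequality (midpoint form). -/
def CN (X : Type*) [MetricSpace X] : Prop :=
  ∀ q r : X, ∃ m : X, ∀ p : X,
    dist p m ^ 2 ≤ (dist p q ^ 2 + dist p r ^ 2) / 2 - dist q r ^ 2 / 4

section basic

variable {X : Type*} [MetricSpace X]

/-- four point inequality: the sum of the squares of the diagonals is at most the sum of the squares of the sides. -/
theorem four_point (h : CN X) (a b c d : X) :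
    dist a c ^ 2 + dist b d ^ 2 ≤ dist a b ^ 2 + dist b c ^ 2 + dist c d ^ 2 + dist d a ^ 2 := by
  obtain ⟨m, hm⟩ := h a c
  have h1 := hm b
  have h2 := hm d
  have h3 : dist b d ≤ dist b m + dist d m := by
    have := dist_triangle b m d
    rwa [dist_comm m d] at this
  have h4 : dist b d ^ 2 ≤ 2 * (dist b m ^ 2 + dist d m ^ 2) := by
    have h5 : dist b d ^ 2 ≤ (dist b m + dist d m) ^ 2 :=
      pow_le_pow_left₀ dist_nonneg h3 2
    nlinarith [sq_nonneg (dist b m - dist d m)]
  rw [dist_comm b a] at h1
  rw [dist_comm d c] at h2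
  nlinarith

/-- midpoint comparison: midpoints of `p q` and `p r`. -/
theorem mid_mid (h : CN X) (p q r : X) : ∃ m n : X, dist p m = dist p q / 2 ∧ dist q m = dist p q / 2 ∧
    dist p n = dist p r / 2 ∧ dist r n = dist p r / 2 ∧ dist m n ≤ dist q r / 2 := by
  obtain ⟨m, hm⟩ := h p q
  obtain ⟨n, hn⟩ := h p r
  have mid : ∀ {u v w : X}, (∀ z : X, dist z w ^ 2 ≤ (dist z u ^ 2 + dist z v ^ 2) / 2 - dist u v ^ 2 / 4) →
      dist u w = dist u v / 2 ∧ dist v w = dist u v / 2 := by
    intro u v w hw
    have h1 := hw u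
    have h2 := hw v
    rw [dist_self] at h1 h2
    rw [dist_comm v u] at h2
    have h3 : dist u w ≤ dist u v / 2 := by
      apply le_of_sq_le_sq _ (by positivity)
      nlinarith
    have h4 : dist v w ≤ dist u v / 2 := by
      apply le_of_sq_le_sq _ (by positivity)
      nlinarith
    have h5 := dist_triangle u w v
    rw [dist_comm w v] at h5
    constructor <;> linarith
  obtain ⟨a1, a2⟩ := mid hm
  obtain ⟨b1, b2⟩ := mid hn
  refine ⟨m, n, a1, a2, b1, b2, ?_⟩
  have c1 := hm n
  have c2 := hn q
  rw [dist_comm n p, dist_comm n q] at c1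
  rw [dist_comm q p] at c2
  rw [b1] at c1
  apply le_of_sq_le_sq _ (by positivity)
  rw [dist_comm m n]
  nlinarith

end basic

end LibBD85
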