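import Pool.Agent.LibBD85.Proper

/-! The necessary condition for mapping tori of automorphisms of free groups. -/

namespace LibBD85

/-- `G` is isomorphic to a subgroup of a CAT(0) group. -/
def InCAT0 (G : Type) [Group G] : Prop :=
  ∃ (Γ : Type) (_ : Group Γ) (f : G →* Γ), Function.Injective f ∧ CAT0Group Γ

/-- the quadratic length on a torsion free subgroup of a CAT(0) group. -/
theorem length_exists {G : Type} [Group G] (hG : InCAT0 G) (htf : ∀ g : G, g ≠ 1 → ∀ n : ℕ, 0 < n → g ^ n ≠ 1) :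
    ∃ L : G → ℝ, (∀ g, g ≠ 1 → 0 < L g) ∧ (∀ g h, L (h * g * h⁻¹) = L g) ∧
      (∀ g, ∀ k : ℕ, L (g ^ k) = k ^ 2 * L g) ∧
      (∀ s g h, Commute g s → Commute h s →
        L (g * h * s) - L (g * h) - L s = (L (g * s) - L g - L s) + (L (h * s) - L h - L s)) := by
  obtain ⟨Γ, _, f, hf, X, _, _, hne, hX, hiso, hprop, K, hK, hcov⟩ := hG
  haveI := hne
  haveI : IsIsometricSMul Γ X := ⟨fun g => Isometry.of_dist_eq (hiso g)⟩
  have tf : ∀ g : G, g ≠ 1 → ∀ n : ℕ, 0 < n → f g ^ n ≠ 1 := by
    intro g hg n hn h1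
    apply htf g hg n hn
    apply hf
    rw [map_pow, h1, map_one]
  have hpos : ∀ g : G, g ≠ 1 → 0 < disp X (f g) := fun g hg =>
    disp_pos hprop hK hcov hX (f g) (tf g hg)
  refine ⟨fun g => disp X (f g) ^ 2, ?_, ?_, ?_, ?_⟩
  · intro g hg
    exact pow_pos (hpos g hg) 2
  · intro g h
    simp only [map_mul, map_inv]
    rw [disp_conj]
  · intro g k
    simp only [map_pow]
    rw [disp_pow hX.CN]
    ring
  · intro s g h hg hh
    by_cases hs : s = 1
    · subst hs
      have h1 : disp X (1 : Γ) = 0 := by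
        obtain ⟨x⟩ := hne
        apply le_antisymm _ (disp_nonneg _)
        have := disp_le (X := X) (1 : Γ) x
        rwa [one_smul, dist_self] at this
      simp only [mul_one, map_one, h1]
      ring
    · have hb := bil_mul hX.CN (f s) (hpos s hs) (attained hprop hK hcov hX (f s)) (f g) (f h)
        (hg.map f) (hh.map f)
      unfold bil at hb
      simp only [map_mul]
      linarith

/-- the mapping torus of an automorphism of a free group. -/
abbrev Torus {n : ℕ} (φ : MulAut (FreeGroup (Fin n))) : Type :=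
  FreeGroup (Fin n) ⋊[zpowersHom (MulAut (FreeGroup (Fin n))) φ] Multiplicative ℤ

theorem freeGroup_tf {α : Type} (g : FreeGroup α) (hg : g ≠ 1) (n : ℕ) (hn : 0 < n) : g ^ n ≠ 1 := by
  intro h
  exact hg ((pow_eq_one_iff_left hn.ne').mp h)

theorem torus_tf {n : ℕ} (φ : MulAut (FreeGroup (Fin n))) (g : Torus φ) (hg : g ≠ 1) (m : ℕ) (hm : 0 < m) :
    g ^ m ≠ 1 := by
  intro h
  have h1 : (SemidirectProduct.rightHom g) ^ m = (1 : Multiplicative ℤ) := by
    rw [← map_pow, h, map_one]
  have h2 : SemidirectProduct.rightHom g = (1 : Multiplicative ℤ) := by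
    have h3 : (m : ℤ) * Multiplicative.toAdd (SemidirectProduct.rightHom g) = 0 := by
      have := congrArg Multiplicative.toAdd h1
      rwa [toAdd_pow, toAdd_one, nsmul_eq_mul] at this
    have h4 : Multiplicative.toAdd (SemidirectProduct.rightHom g) = 0 := by
      rcases mul_eq_zero.mp h3 with h5 | h5
      · exfalso; have : m = 0 := by exact_mod_cast h5
        omega
      · exact h5
    exact Multiplicative.toAdd.injective h4
  have h3 : g = SemidirectProduct.inl g.left := by
    have h4 : g.right = 1 := h2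
    ext
    · rfl
    · rw [h4]; rfl
  rw [h3, ← map_pow] at h
  have h5 : g.left ^ m = 1 := SemidirectProduct.inl_injective (by rw [h, map_one])
  apply hg
  rw [h3]
  by_contra hne
  apply freeGroup_tf g.left _ m hm h5
  intro h6
  apply hne
  rw [h6, map_one]

/-- the element of the mapping torus inducing `conj w * φ ^ k`. -/
def elt {n : ℕ} (φ : MulAut (FreeGroup (Fin n))) (w : FreeGroup (Fin n)) (k : ℤ) : Torus φ :=
  SemidirectProduct.inl w * SemidirectProduct.inr (Multiplicative.ofAdd k)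

theorem elt_conj {n : ℕ} (φ : MulAut (FreeGroup (Fin n))) (w : FreeGroup (Fin n)) (k : ℤ) (x : FreeGroup (Fin n)) :
    elt φ w k * SemidirectProduct.inl x * (elt φ w k)⁻¹ = SemidirectProduct.inl ((MulAut.conj w * φ ^ k) x) := by
  have h1 : (SemidirectProduct.inl ((φ ^ k) x) : Torus φ) =
      SemidirectProduct.inr (Multiplicative.ofAdd k) * SemidirectProduct.inl x *
        SemidirectProduct.inr (Multiplicative.ofAdd k)⁻¹ := by
    rw [← SemidirectProduct.inl_aut]
    rfl
  rw [MulAut.mul_apply, MulAut.conj_apply, map_mul, map_mul, h1, map_inv, map_inv]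
  unfold elt
  rw [mul_inv_rev]
  group

theorem main {n : ℕ} (φ : MulAut (FreeGroup (Fin n))) (hφ : InCAT0 (Torus φ)) :
    ∃ L : FreeGroup (Fin n) → ℝ,
      (∀ g, g ≠ 1 → 0 < L g) ∧ (∀ g h, L (h * g * h⁻¹) = L g) ∧ (∀ g, ∀ k : ℕ, L (g ^ k) = k ^ 2 * L g) ∧
      (∀ g, L (φ g) = L g) ∧
      ∀ (w : FreeGroup (Fin n)) (k : ℤ), ∃ β : FreeGroup (Fin n) → ℝ,
        (∀ g h, (MulAut.conj w * φ ^ k) g = g → (MulAut.conj w * φ ^ k) h = h → β (g * h) = β g + β h) ∧
        ∀ x, (MulAut.conj w * φ ^ k) (x⁻¹ * (MulAut.conj w * φ ^ k) x) = x⁻¹ * (MulAut.conj w * φ ^ k) x →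
          β (x⁻¹ * (MulAut.conj w * φ ^ k) x) = - L (x⁻¹ * (MulAut.conj w * φ ^ k) x) := by
  obtain ⟨L, hpos, hconj, hpow, hadd⟩ := length_exists hφ (torus_tf φ)
  refine ⟨fun g => L (SemidirectProduct.inl g), ?_, ?_, ?_, ?_, ?_⟩
  · intro g hg
    apply hpos
    intro h
    exact hg (SemidirectProduct.inl_injective (by rw [h, map_one]))
  · intro g h
    simp only [map_mul, map_inv]
    exact hconj _ _
  · intro g k
    simp only [map_pow]
    exact hpow _ _
  · intro g
    have h1 := elt_conj φ 1 1 g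
    rw [map_one, one_mul, zpow_one] at h1
    simp only
    rw [← h1, hconj]
  · intro w k
    set ψ := MulAut.conj w * φ ^ k with hψ
    set s := elt φ w k with hs
    have hcomm : ∀ g, ψ g = g → Commute (SemidirectProduct.inl g : Torus φ) s := by
      intro g hg
      have h1 := elt_conj φ w k g
      rw [← hψ, ← hs, hg] at h1
      have h2 : s * SemidirectProduct.inl g = SemidirectProduct.inl g * s :=
        mul_inv_eq_iff_eq_mul.mp h1
      exact h2.symm
    refine ⟨fun g => L (SemidirectProduct.inl g * s) - L (SemidirectProduct.inl g) - L s, ?_, ?_⟩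
    · intro g h hg hh
      simp only [map_mul]
      exact hadd s _ _ (hcomm g hg) (hcomm h hh)
    · intro x hx
      have h1 := elt_conj φ w k x
      rw [← hψ, ← hs] at h1
      have h2 : (SemidirectProduct.inl (x⁻¹ * ψ x) : Torus φ) * s =
          (SemidirectProduct.inl x)⁻¹ * s * ((SemidirectProduct.inl x)⁻¹)⁻¹ := by
        rw [map_mul, map_inv, ← h1]
        group
      simp only
      rw [h2, hconj]
      ring

theorem not_inCAT0 {n : ℕ} (φ : MulAut (FreeGroup (Fin n))) (w : FreeGroup (Fin n)) (k : ℤ)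
    (x : FreeGroup (Fin n)) (F : Subgroup (FreeGroup (Fin n)))
    (hF : ∀ g ∈ F, (MulAut.conj w * φ ^ k) g = g)
    (h1 : x⁻¹ * (MulAut.conj w * φ ^ k) x ∈ ⁅F, F⁆) (h2 : x⁻¹ * (MulAut.conj w * φ ^ k) x ≠ 1) :
    ¬ InCAT0 (Torus φ) := by
  intro hφ
  obtain ⟨L, hpos, -, -, -, h⟩ := main φ hφ
  obtain ⟨β, hβ, hβ'⟩ := h w k
  set ψ := MulAut.conj w * φ ^ k with hψ
  set u := x⁻¹ * ψ x with hu
  have hle : ⁅F, F⁆ ≤ F := Subgroup.commutator_le_self F
  have hfix : ψ u = u := hF u (hle h1)
  have hone : β 1 = 0 := by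
    have := hβ 1 1 (map_one _) (map_one _)
    rw [mul_one] at this
    linarith
  -- β as a homomorphism on F
  let b : F →* Multiplicative ℝ :=
    { toFun := fun g => Multiplicative.ofAdd (β g)
      map_one' := by simp [hone]
      map_mul' := by
        intro g h
        simp only [Subgroup.coe_mul]
        rw [hβ g h (hF _ g.2) (hF _ h.2)]
        rfl }
  have hz : β u = 0 := by
    have h3 : (⟨u, hle h1⟩ : F) ∈ b.ker := by
      have h4 : commutator F ≤ b.ker := Abelianization.commutator_subset_ker b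
      apply h4
      have h5 : (commutator F).map F.subtype = ⁅F, F⁆ := by
        rw [commutator_def, Subgroup.map_commutator, ← MonoidHom.range_eq_map, Subgroup.range_subtype]
      rw [← h5] at h1
      obtain ⟨y, hy, hy'⟩ := h1
      have : y = ⟨u, hle (h5 ▸ ⟨y, hy, hy'⟩)⟩ := Subtype.ext hy'
      rw [← this]
      exact hy
    rw [MonoidHom.mem_ker] at h3
    exact congrArg Multiplicative.toAdd h3
  have h6 := hβ' x hfix
  have h7 := hpos u h2
  rw [hz] at h6
  linarith

end LibBD85
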