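import Pool.Agent.LibBD85.Bus
import Pool.Agent.LibBD85.Defs

/-! Proper cocompact actions: displacements are attained, infinite order elements have positive displacement. -/

namespace LibBD85

open Filter Topology

theorem IsCAT0.CN {X : Type*} [MetricSpace X] (h : IsCAT0 X) : CN X := by
  intro q r
  obtain ⟨γ, h0, h1, hγ⟩ := h.geodesic q r
  have hd : 0 ≤ dist q r := dist_nonneg
  have m1 : (0 : ℝ) ∈ Set.Icc 0 (dist q r) := ⟨le_refl _, hd⟩
  have m2 : dist q r / 2 ∈ Set.Icc 0 (dist q r) := ⟨by linarith, by linarith⟩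
  have m3 : dist q r ∈ Set.Icc 0 (dist q r) := ⟨hd, le_refl _⟩
  refine ⟨γ (dist q r / 2), h.cn q r _ ?_ ?_⟩
  · have := hγ 0 m1 _ m2
    rw [h0] at this
    rw [this, zero_sub, abs_neg, abs_of_nonneg (by linarith)]
  · have := hγ _ m3 _ m2
    rw [h1] at this
    rw [this, abs_of_nonneg (by linarith)]
    ring

variable {G : Type*} [Group G] {X : Type*} [MetricSpace X] [MulAction G X] [IsIsometricSMul G X]

section

variable (hprop : ∀ x : X, ∃ r > 0, {g : G | ∃ y ∈ Metric.ball x r, g • y ∈ Metric.ball x r}.Finite)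
  {K : Set X} (hK : IsCompact K) (hcov : ∀ x : X, ∃ g : G, g • x ∈ K)

include hprop hK in
theorem unif : ∃ ε > 0, {g : G | ∃ p ∈ K ×ˢ K, dist p.1 (g • p.2) < ε}.Finite := by
  apply (hK.prod hK).induction_on
    (p := fun A : Set (X × X) => ∃ ε > 0, {g : G | ∃ p ∈ A, dist p.1 (g • p.2) < ε}.Finite)
  · exact ⟨1, one_pos, by simp⟩
  · rintro s t hst ⟨ε, hε, hf⟩
    refine ⟨ε, hε, hf.subset ?_⟩
    rintro g ⟨p, hp, hd⟩
    exact ⟨p, hst hp, hd⟩
  · rintro s t ⟨ε, hε, hf⟩ ⟨δ, hδ, hf'⟩
    refine ⟨min ε δ, lt_min hε hδ, (hf.union hf').subset ?_⟩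
    rintro g ⟨p, hp | hp, hd⟩
    · exact Or.inl ⟨p, hp, lt_of_lt_of_le hd (min_le_left _ _)⟩
    · exact Or.inr ⟨p, hp, lt_of_lt_of_le hd (min_le_right _ _)⟩
  · rintro ⟨x, y⟩ _
    obtain ⟨r, hr, hF⟩ := hprop x
    refine ⟨Metric.ball x (r / 4) ×ˢ Metric.ball y (r / 4), ?_, r / 4, by positivity, ?_⟩
    · apply mem_nhdsWithin_of_mem_nhds
      exact prod_mem_nhds (Metric.ball_mem_nhds _ (by positivity)) (Metric.ball_mem_nhds _ (by positivity))
    · have hsub : {g : G | ∃ p ∈ Metric.ball x (r / 4) ×ˢ Metric.ball y (r / 4), dist p.1 (g • p.2) < r / 4} ⊆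
          {g : G | dist x (g • y) < r} := by
        rintro g ⟨⟨x', y'⟩, ⟨h1, h2⟩, h3⟩
        simp only [Metric.mem_ball] at h1 h2
        have t1 := dist_triangle x x' (g • y)
        have t2 := dist_triangle x' (g • y') (g • y)
        rw [dist_smul] at t2
        rw [dist_comm x x'] at t1
        show dist x (g • y) < r
        simp only at h3
        linarith
      apply Set.Finite.subset _ hsub
      by_cases hs : ∃ s : G, dist x (s • y) < r
      · obtain ⟨s, hs⟩ := hs
        apply (hF.image (fun c => c * s)).subset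
        intro g hg
        refine ⟨g * s⁻¹, ⟨s • y, ?_, ?_⟩, by simp⟩
        · rwa [Metric.mem_ball, dist_comm]
        · rw [mul_smul, inv_smul_smul, Metric.mem_ball, dist_comm]
          exact hg
      · push_neg at hs
        have : {g : G | dist x (g • y) < r} = ∅ := by
          ext g
          simp only [Set.mem_setOf_eq, Set.mem_empty_iff_false, iff_false, not_lt]
          exact hs g
        rw [this]
        exact Set.finite_empty

include hprop hK hcov in
theorem chain (hX : IsCAT0 X) : ∃ ε > 0, ∀ n : ℕ, {g : G | ∃ x ∈ K, ∃ y ∈ K, dist x (g • y) < n * ε}.Finite := by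
  obtain ⟨ε, hε, hS⟩ := unif (G := G) hprop hK
  refine ⟨ε / 2, by positivity, ?_⟩
  intro n
  induction n with
  | zero =>
    have : {g : G | ∃ x ∈ K, ∃ y ∈ K, dist x (g • y) < (0 : ℕ) * (ε / 2)} = ∅ := by
      ext g
      simp only [Set.mem_setOf_eq, Set.mem_empty_iff_false, iff_false, Nat.cast_zero, zero_mul]
      rintro ⟨x, _, y, _, h⟩
      exact absurd h (not_lt.mpr dist_nonneg)
    rw [this]
    exact Set.finite_empty
  | succ n ih =>
    apply ((ih.mul hS).union hS).subset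
    rintro g ⟨x, hx, y, hy, hd⟩
    by_cases hsm : dist x (g • y) < ε
    · exact Or.inr ⟨(x, y), ⟨hx, hy⟩, hsm⟩
    · push_neg at hsm
      left
      obtain ⟨γ, h0, h1, hγ⟩ := hX.geodesic x (g • y)
      have m1 : (0 : ℝ) ∈ Set.Icc 0 (dist x (g • y)) := ⟨le_refl _, by linarith⟩
      have m2 : dist x (g • y) - ε / 2 ∈ Set.Icc 0 (dist x (g • y)) := ⟨by linarith, by linarith⟩
      have m3 : dist x (g • y) ∈ Set.Icc 0 (dist x (g • y)) := ⟨by linarith, le_refl _⟩
      set z := γ (dist x (g • y) - ε / 2) with hz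
      have d1 : dist x z = dist x (g • y) - ε / 2 := by
        have := hγ _ m1 _ m2
        rw [h0] at this
        rw [hz, this, zero_sub, abs_neg, abs_of_nonneg m2.1]
      have d2 : dist z (g • y) = ε / 2 := by
        have := hγ _ m2 _ m3
        rw [h1] at this
        rw [hz, this, abs_sub_comm, abs_of_nonneg (by linarith)]
        ring
      obtain ⟨h, hh⟩ := hcov z
      refine ⟨h⁻¹, ⟨x, hx, h • z, hh, ?_⟩, h * g, ⟨(h • z, y), ⟨hh, hy⟩, ?_⟩, by simp⟩
      · rw [inv_smul_smul, d1]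
        push_cast at hd
        linarith
      · show dist (h • z) ((h * g) • y) < ε
        rw [mul_smul, dist_smul, d2]
        linarith

include hprop hK hcov in
theorem finite_le (hX : IsCAT0 X) (x₀ : X) (hx₀ : x₀ ∈ K) (r : ℝ) : {g : G | dist x₀ (g • x₀) ≤ r}.Finite := by
  obtain ⟨ε, hε, h⟩ := chain (G := G) hprop hK hcov hX
  obtain ⟨n, hn⟩ := exists_nat_gt (r / ε)
  apply (h n).subset
  intro g hg
  refine ⟨x₀, hx₀, x₀, hx₀, lt_of_le_of_lt hg ?_⟩
  rwa [div_lt_iff₀ hε] at hn

include hprop hK hcov in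
theorem attained [Nonempty X] (hX : IsCAT0 X) (g : G) : ∃ x : X, dist x (g • x) = disp X g := by
  obtain ⟨w⟩ := (inferInstance : Nonempty X)
  obtain ⟨h₀, hh₀⟩ := hcov w
  set k₀ := h₀ • w with hk₀
  obtain ⟨R, hR⟩ := hK.isBounded.subset_closedBall k₀
  set F : Set G := {c : G | dist k₀ (c • k₀) ≤ 2 * R + disp X g + 1} ∩ {c | ∃ h, c = h * g * h⁻¹} with hF
  have hfin : F.Finite := (finite_le hprop hK hcov hX k₀ hh₀ _).inter_of_left _
  -- for every small displacement there is a conjugate in F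
  have hex : ∀ x : X, dist x (g • x) < disp X g + 1 → ∃ c ∈ F, ∃ y ∈ K, dist y (c • y) = dist x (g • x) := by
    intro x hx
    obtain ⟨h, hh⟩ := hcov x
    have e : dist (h • x) ((h * g * h⁻¹) • h • x) = dist x (g • x) := by
      rw [mul_smul, inv_smul_smul, mul_smul, dist_smul]
    refine ⟨h * g * h⁻¹, ⟨?_, h, rfl⟩, h • x, hh, e⟩
    have hb := hR hh
    rw [Metric.mem_closedBall] at hb
    have t1 := dist_triangle k₀ (h • x) ((h * g * h⁻¹) • k₀)
    have t2 := dist_triangle (h • x) ((h * g * h⁻¹) • h • x) ((h * g * h⁻¹) • k₀)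
    rw [dist_smul, e] at t2
    rw [dist_comm k₀ (h • x)] at t1
    show dist k₀ ((h * g * h⁻¹) • k₀) ≤ _
    linarith
  have hne : F.Nonempty := by
    obtain ⟨x, hx⟩ := exists_lt (X := X) g one_pos
    obtain ⟨c, hc, _⟩ := hex x hx
    exact ⟨c, hc⟩
  have hKne : K.Nonempty := ⟨k₀, hh₀⟩
  have hmin : ∀ c : G, ∃ x ∈ K, ∀ y ∈ K, dist x (c • x) ≤ dist y (c • y) := by
    intro c
    obtain ⟨x, hx, hx'⟩ := hK.exists_isMinOn hKne
      (f := fun y : X => dist y (c • y)) (by
        apply Continuous.continuousOn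
        exact continuous_id.dist (isometry_smul X c).continuous)
    exact ⟨x, hx, fun y hy => hx' hy⟩
  choose m hm hm' using hmin
  obtain ⟨c, hc, hc'⟩ := Set.exists_min_image F (fun c => dist (m c) (c • m c)) hfin hne
  obtain ⟨h, hh⟩ := hc.2
  refine ⟨h⁻¹ • m c, ?_⟩
  have e1 : dist (h⁻¹ • m c) (g • h⁻¹ • m c) = dist (m c) (c • m c) := by
    rw [hh, ← dist_smul h, smul_inv_smul, ← mul_smul, ← mul_smul]
  apply le_antisymm _ (disp_le g _)
  rw [e1]
  apply le_of_forall_pos_le_add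
  intro ε hε
  obtain ⟨x, hx⟩ := exists_lt (X := X) g (lt_min hε one_pos)
  obtain ⟨c₂, hc₂, y, hy, hy'⟩ := hex x (lt_of_lt_of_le hx (by gcongr; exact min_le_right _ _))
  have i1 := hc' c₂ hc₂
  have i2 := hm' c₂ y hy
  have i3 : disp X g + min ε 1 ≤ disp X g + ε := by gcongr; exact min_le_left _ _
  linarith

include hprop hK hcov in
theorem disp_pos [Nonempty X] (hX : IsCAT0 X) (g : G) (hg : ∀ n : ℕ, 0 < n → g ^ n ≠ 1) : 0 < disp X g := by
  obtain ⟨x, hx⟩ := attained hprop hK hcov hX g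
  rcases (disp_nonneg (X := X) g).lt_or_eq with h | h
  · exact h
  exfalso
  rw [← h] at hx
  have hfix : g • x = x := (dist_eq_zero.mp hx).symm
  obtain ⟨s, hs⟩ := hcov x
  have hfix2 : ∀ n : ℕ, (s * g ^ n * s⁻¹) • (s • x) = s • x := by
    intro n
    rw [mul_smul, inv_smul_smul, mul_smul]
    congr 1
    induction n with
    | zero => simp
    | succ n ih => rw [pow_succ, mul_smul, hfix, ih]
  have hfin := finite_le hprop hK hcov hX (s • x) hs 0
  have hinj : Function.Injective (fun n : ℕ => s * g ^ n * s⁻¹) := by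
    intro a b hab
    have h1 : g ^ a = g ^ b := by simpa using hab
    by_contra hne
    rcases Nat.lt_or_gt_of_ne hne with hlt | hlt
    · apply hg (b - a) (by omega)
      have : g ^ a * g ^ (b - a) = g ^ a := by rw [← pow_add, Nat.add_sub_cancel' hlt.le, ← h1]
      simpa using this
    · apply hg (a - b) (by omega)
      have : g ^ b * g ^ (a - b) = g ^ b := by rw [← pow_add, Nat.add_sub_cancel' hlt.le, h1]
      simpa using this
  apply Set.infinite_of_injective_forall_mem hinj _ hfin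
  intro n
  show dist (s • x) _ ≤ 0
  rw [hfix2 n, dist_self]

end

end LibBD85
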