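import Pool.Agent.LibBD85.Main

/-! The automorphisms fixing all basis elements but the last one, which is multiplied by `v`. -/

namespace LibBD85

open FreeGroup

/-- the endomorphism of `F_(n+1)` fixing the first `n` basis elements and multiplying the last one by `v`. -/
def transvHom {n : ℕ} (v : FreeGroup (Fin n)) : FreeGroup (Fin (n + 1)) →* FreeGroup (Fin (n + 1)) :=
  FreeGroup.lift (Fin.snoc (α := fun _ => FreeGroup (Fin (n + 1))) (fun i => of (Fin.castSucc i))
    (of (Fin.last n) * FreeGroup.map Fin.castSucc v))

theorem transvHom_castSucc {n : ℕ} (v : FreeGroup (Fin n)) (i : Fin n) :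
    transvHom v (of (Fin.castSucc i)) = of (Fin.castSucc i) := by
  unfold transvHom
  rw [FreeGroup.lift_apply_of, Fin.snoc_castSucc]

theorem transvHom_last {n : ℕ} (v : FreeGroup (Fin n)) :
    transvHom v (of (Fin.last n)) = of (Fin.last n) * FreeGroup.map Fin.castSucc v := by
  unfold transvHom
  rw [FreeGroup.lift_apply_of, Fin.snoc_last]

theorem transvHom_map {n : ℕ} (v w : FreeGroup (Fin n)) :
    transvHom v (FreeGroup.map Fin.castSucc w) = FreeGroup.map Fin.castSucc w := by
  have : (transvHom v).comp (FreeGroup.map Fin.castSucc) = FreeGroup.map (Fin.castSucc (n := n)) := by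
    ext i
    simp only [MonoidHom.comp_apply, FreeGroup.map.of]
    exact transvHom_castSucc v i
  exact DFunLike.congr_fun this w

theorem transvHom_comp {n : ℕ} (v w : FreeGroup (Fin n)) (x : FreeGroup (Fin (n + 1))) :
    transvHom v (transvHom w x) = transvHom (v * w) x := by
  have : (transvHom v).comp (transvHom w) = transvHom (v * w) := by
    ext i
    refine Fin.lastCases ?_ (fun i => ?_) i
    · simp only [MonoidHom.comp_apply]
      rw [transvHom_last, transvHom_last, _root_.map_mul, transvHom_last, transvHom_map, _root_.map_mul, mul_assoc]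
    · simp only [MonoidHom.comp_apply]
      rw [transvHom_castSucc, transvHom_castSucc, transvHom_castSucc]
  exact DFunLike.congr_fun this x

theorem transvHom_one {n : ℕ} (x : FreeGroup (Fin (n + 1))) : transvHom (1 : FreeGroup (Fin n)) x = x := by
  have : transvHom (1 : FreeGroup (Fin n)) = MonoidHom.id _ := by
    ext i
    refine Fin.lastCases ?_ (fun i => ?_) i
    · rw [transvHom_last, _root_.map_one, mul_one]; rfl
    · rw [transvHom_castSucc]; rfl
  rw [this]; rfl

/-- the automorphism of `F_(n+1)` fixing the first `n` basis elements and multiplying the last one by `v`. -/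
def transv {n : ℕ} (v : FreeGroup (Fin n)) : MulAut (FreeGroup (Fin (n + 1))) :=
  { transvHom v with
    invFun := transvHom v⁻¹
    left_inv := fun x => by
      show transvHom v⁻¹ (transvHom v x) = x
      rw [transvHom_comp, inv_mul_cancel, transvHom_one]
    right_inv := fun x => by
      show transvHom v (transvHom v⁻¹ x) = x
      rw [transvHom_comp, mul_inv_cancel, transvHom_one] }

theorem transv_apply {n : ℕ} (v : FreeGroup (Fin n)) (x : FreeGroup (Fin (n + 1))) :
    transv v x = transvHom v x := rfl

theorem map_castSucc_injective {n : ℕ} : Function.Injective (FreeGroup.map (Fin.castSucc (n := n))) :=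
  FreeGroup.map_injective (Fin.castSucc_injective n)

theorem not_inCAT0_of_fix {n : ℕ} (φ : MulAut (FreeGroup (Fin (n + 1)))) (v : FreeGroup (Fin n))
    (h1 : ∀ i : Fin n, φ (of (Fin.castSucc i)) = of (Fin.castSucc i))
    (h2 : φ (of (Fin.last n)) = of (Fin.last n) * FreeGroup.map Fin.castSucc v)
    (hv : v ∈ commutator (FreeGroup (Fin n))) (hv1 : v ≠ 1) : ¬ InCAT0 (Torus φ) := by
  have hmap : ∀ w : FreeGroup (Fin n), φ (FreeGroup.map Fin.castSucc w) = FreeGroup.map Fin.castSucc w := by
    intro w
    have : (φ.toMonoidHom).comp (FreeGroup.map Fin.castSucc) = FreeGroup.map (Fin.castSucc (n := n)) := by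
      ext i
      simp only [MonoidHom.comp_apply, FreeGroup.map.of]
      exact h1 i
    exact DFunLike.congr_fun this w
  have e : (of (Fin.last n))⁻¹ * (MulAut.conj (1 : FreeGroup (Fin (n + 1))) * φ ^ (1 : ℤ)) (of (Fin.last n)) =
      FreeGroup.map Fin.castSucc v := by
    rw [_root_.map_one, one_mul, zpow_one, h2, inv_mul_cancel_left]
  apply not_inCAT0 φ 1 1 (of (Fin.last n)) (FreeGroup.map (Fin.castSucc (n := n))).range
  · rintro _ ⟨w, rfl⟩
    rw [_root_.map_one, one_mul, zpow_one]
    exact hmap w
  · rw [e, MonoidHom.range_eq_map, ← Subgroup.map_commutator]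
    exact ⟨v, hv, rfl⟩
  · rw [e]
    intro h
    exact hv1 (map_castSucc_injective (by rw [h, _root_.map_one]))

end LibBD85
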