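import Pool.Agent.LibBD85.Main

/-! From a subgroup of finite index to the whole group. -/

namespace LibBD85

open Subgroup

theorem central_pow {A : Type*} [Group A] (K : Subgroup A) [K.FiniteIndex] (hK : K ≤ Subgroup.center A)
    (e : ℕ) (g h : A) :
    ∃ m : ℕ, 0 < m ∧ ((g * h) ^ e) ^ m = (g ^ e) ^ m * (h ^ e) ^ m := by
  haveI : (Subgroup.center A).FiniteIndex := Subgroup.finiteIndex_of_le hK
  refine ⟨(Subgroup.center A).index, Nat.pos_of_ne_zero Subgroup.FiniteIndex.index_ne_zero, ?_⟩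
  set m := (Subgroup.center A).index with hm
  have h1 : ∀ x : A, ((MonoidHom.transferCenterPow A x : Subgroup.center A) : A) = x ^ m := fun x =>
    MonoidHom.transferCenterPow_apply x
  have h2 : (g * h) ^ m = g ^ m * h ^ m := by
    rw [← h1, ← h1, ← h1, map_mul]
    rfl
  have h3 : Commute (g ^ m) (h ^ m) := by
    have h4 : g ^ m ∈ Subgroup.center A := by rw [← h1]; exact (MonoidHom.transferCenterPow A g).2
    exact (Subgroup.mem_center_iff.mp h4 (h ^ m)).symm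
  rw [← pow_mul, mul_comm e m, pow_mul, h2, h3.mul_pow, ← pow_mul, ← pow_mul, ← pow_mul, ← pow_mul, mul_comm e m]

theorem inv_add {A : Type*} [Group A] (K : Subgroup A) [hKn : K.Normal] [K.FiniteIndex]
    (B : K →* Multiplicative ℝ)
    (inv : ∀ (y : A) (u : K), B ⟨y * u * y⁻¹, hKn.conj_mem _ u.2 y⟩ = B u)
    (e : ℕ) (he : ∀ g : A, g ^ e ∈ K) (g h : A) :
    B ⟨(g * h) ^ e, he _⟩ = B ⟨g ^ e, he _⟩ * B ⟨h ^ e, he _⟩ := by
  set N0 : Subgroup A := B.ker.map K.subtype with hN0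
  have hmem : ∀ u : K, (u : A) ∈ N0 ↔ B u = 1 := by
    intro u
    constructor
    · rintro ⟨v, hv, hv'⟩
      have : v = u := Subtype.ext hv'
      rw [← this]
      exact hv
    · intro hu
      exact ⟨u, hu, rfl⟩
  haveI : N0.Normal := by
    constructor
    rintro _ ⟨u, hu, rfl⟩ y
    have : B ⟨y * u * y⁻¹, hKn.conj_mem _ u.2 y⟩ = 1 := by
      rw [inv]
      exact hu
    exact (hmem ⟨y * u * y⁻¹, hKn.conj_mem _ u.2 y⟩).mpr this
  set π := QuotientGroup.mk' N0 with hπ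
  haveI : (K.map π).FiniteIndex := by
    constructor
    rw [Subgroup.index_map]
    apply mul_ne_zero
    · haveI : (K ⊔ π.ker).FiniteIndex := Subgroup.finiteIndex_of_le le_sup_left
      exact Subgroup.FiniteIndex.index_ne_zero
    · rw [MonoidHom.range_eq_top.mpr (QuotientGroup.mk'_surjective N0), Subgroup.index_top]
      exact one_ne_zero
  have hcen : K.map π ≤ Subgroup.center (A ⧸ N0) := by
    rintro _ ⟨u, hu, rfl⟩
    rw [Subgroup.mem_center_iff]
    intro y'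
    obtain ⟨y, rfl⟩ := QuotientGroup.mk'_surjective N0 y'
    rw [← hπ, ← map_mul, ← map_mul]
    rw [hπ, QuotientGroup.mk'_eq_mk']
    refine ⟨(y * u)⁻¹ * (u * y), ?_, by group⟩
    have h1 : (y * u)⁻¹ * (u * y) = ((⟨u, hu⟩ : K)⁻¹ * ⟨y⁻¹ * (⟨u, hu⟩ : K) * (y⁻¹)⁻¹, hKn.conj_mem _ hu y⁻¹⟩ : K) := by
      simp [mul_assoc]
    rw [h1, hmem, map_mul, inv, map_inv, inv_mul_cancel]
  obtain ⟨m, hm, hme⟩ := central_pow (K.map π) hcen e (π g) (π h)
  rw [← map_mul, ← map_pow, ← map_pow, ← map_pow, ← map_pow, ← map_pow, ← map_pow, ← map_mul] at hme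
  rw [hπ, QuotientGroup.mk'_eq_mk'] at hme
  obtain ⟨z, hz, hz'⟩ := hme
  have h2 : z = (((⟨(g * h) ^ e, he _⟩ : K) ^ m)⁻¹ * ((⟨g ^ e, he _⟩ : K) ^ m * (⟨h ^ e, he _⟩ : K) ^ m) : K) := by
    simp only [Subgroup.coe_mul, Subgroup.coe_inv, Subgroup.coe_pow]
    rw [← hz']
    group
  rw [h2, hmem] at hz
  simp only [map_mul, map_inv, map_pow] at hz
  have h3 := congrArg Multiplicative.toAdd hz
  simp only [toAdd_mul, toAdd_inv, toAdd_pow, toAdd_one, nsmul_eq_mul] at h3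
  have hm' : (m : ℝ) ≠ 0 := by exact_mod_cast hm.ne'
  apply Multiplicative.toAdd.injective
  rw [toAdd_mul]
  have h4 : (m : ℝ) * (Multiplicative.toAdd (B ⟨g ^ e, he _⟩) + Multiplicative.toAdd (B ⟨h ^ e, he _⟩) -
      Multiplicative.toAdd (B ⟨(g * h) ^ e, he _⟩)) = 0 := by linarith
  rcases mul_eq_zero.mp h4 with h5 | h5
  · exact absurd h5 hm'
  · linarith

/-- the four properties of a quadratic length. -/
structure QLength {G : Type*} [Group G] (L : G → ℝ) : Prop where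
  pos : ∀ g, g ≠ 1 → 0 < L g
  conj : ∀ g h, L (h * g * h⁻¹) = L g
  pow : ∀ g, ∀ k : ℕ, L (g ^ k) = k ^ 2 * L g
  add : ∀ s g h, Commute g s → Commute h s →
    L (g * h * s) - L (g * h) - L s = (L (g * s) - L g - L s) + (L (h * s) - L h - L s)

theorem length_virt {G : Type*} [Group G] (htf : ∀ g : G, g ≠ 1 → ∀ n : ℕ, 0 < n → g ^ n ≠ 1)
    (H : Subgroup G) [H.FiniteIndex] (L : H → ℝ) (hL : QLength L) : ∃ L' : G → ℝ, QLength L' := by
  classical
  set K := H.normalCore with hK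
  have hle : K ≤ H := H.normalCore_le
  haveI : K.FiniteIndex := by rw [hK]; infer_instance
  haveI hKn : K.Normal := by rw [hK]; infer_instance
  haveI : Fintype (G ⧸ K) := K.fintypeQuotientOfFiniteIndex
  set e := K.index with he
  have he0 : 0 < e := Nat.pos_of_ne_zero Subgroup.FiniteIndex.index_ne_zero
  have hpe : ∀ g : G, g ^ e ∈ K := fun g => K.pow_index_mem g
  let LH : G → ℝ := fun g => if h : g ∈ H then L ⟨g, h⟩ else 0
  have LHe : ∀ g (h : g ∈ H), LH g = L ⟨g, h⟩ := fun g h => dif_pos h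
  let Lh : G → ℝ := fun u => ∑ q : G ⧸ K, LH (MulAut.conj (q.out)⁻¹ u)
  have hcK : ∀ (a u : G), u ∈ K → MulAut.conj a u ∈ K := fun a u hu => hKn.conj_mem _ hu a
  have conjL : ∀ y u, u ∈ K → Lh (y * u * y⁻¹) = Lh u := by
    intro y u hu
    show ∑ q : G ⧸ K, LH (MulAut.conj (q.out)⁻¹ (y * u * y⁻¹)) = ∑ q : G ⧸ K, LH (MulAut.conj (q.out)⁻¹ u)
    refine Fintype.sum_equiv (MulAction.toPerm y⁻¹) _ _ ?_
    intro q
    rw [MulAction.toPerm_apply]
    set b := (y⁻¹ • q).out with hb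
    have h1 : b⁻¹ * (y⁻¹ * q.out) ∈ K := by
      rw [← QuotientGroup.eq, hb, QuotientGroup.out_eq']
      conv_lhs => rw [← QuotientGroup.out_eq' q]
      rfl
    set k := b⁻¹ * (y⁻¹ * q.out) with hk
    have h2 : MulAut.conj (q.out)⁻¹ (y * u * y⁻¹) = k⁻¹ * (MulAut.conj b⁻¹ u) * (k⁻¹)⁻¹ := by
      simp only [MulAut.conj_apply, hk]
      group
    have h3 : MulAut.conj b⁻¹ u ∈ H := hle (hcK _ _ hu)
    have h4 : k ∈ H := hle h1
    rw [h2, LHe _ (H.mul_mem (H.mul_mem (H.inv_mem h4) h3) (H.inv_mem (H.inv_mem h4))), LHe _ h3]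
    exact hL.conj ⟨MulAut.conj b⁻¹ u, h3⟩ ⟨k⁻¹, H.inv_mem h4⟩
  refine ⟨fun g => Lh (g ^ e), ?_, ?_, ?_, ?_⟩
  · intro g hg
    apply Finset.sum_pos
    · intro q _
      have h1 : MulAut.conj (q.out)⁻¹ (g ^ e) ∈ H := hle (hcK _ _ (hpe g))
      rw [LHe _ h1]
      apply hL.pos
      intro h2
      have h3 : MulAut.conj (q.out)⁻¹ (g ^ e) = 1 := congrArg Subtype.val h2
      exact htf g hg e he0 ((MulEquiv.map_eq_one_iff _).mp h3)
    · exact ⟨((1 : G) : G ⧸ K), Finset.mem_univ _⟩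
  · intro g h
    show Lh ((h * g * h⁻¹) ^ e) = Lh (g ^ e)
    rw [conj_pow]
    exact conjL h _ (hpe g)
  · intro g k
    show Lh ((g ^ k) ^ e) = k ^ 2 * Lh (g ^ e)
    rw [← pow_mul, mul_comm k e, pow_mul]
    show ∑ q : G ⧸ K, LH (MulAut.conj (q.out)⁻¹ ((g ^ e) ^ k)) = k ^ 2 * ∑ q : G ⧸ K, LH (MulAut.conj (q.out)⁻¹ (g ^ e))
    rw [Finset.mul_sum]
    apply Finset.sum_congr rfl
    intro q _
    have h1 : MulAut.conj (q.out)⁻¹ (g ^ e) ∈ H := hle (hcK _ _ (hpe g))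
    rw [map_pow, LHe _ (H.pow_mem h1 k), LHe _ h1]
    exact hL.pow ⟨_, h1⟩ k
  · intro s g h hg hh
    set σ := s ^ e with hσ
    let Bf : G → ℝ := fun u => Lh (u * σ) - Lh u - Lh σ
    have hBf : ∀ g, Commute g s → Lh ((g * s) ^ e) - Lh (g ^ e) - Lh (s ^ e) = Bf (g ^ e) := by
      intro g hg
      show _ = Lh (g ^ e * s ^ e) - _ - _
      rw [hg.mul_pow]
    have hBadd : ∀ u ∈ K, ∀ v ∈ K, Commute u σ → Commute v σ → Bf (u * v) = Bf u + Bf v := by
      intro u hu v hv hus hvs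
      show (∑ q : G ⧸ K, LH (MulAut.conj (q.out)⁻¹ (u * v * σ))) - (∑ q : G ⧸ K, LH (MulAut.conj (q.out)⁻¹ (u * v))) -
          (∑ q : G ⧸ K, LH (MulAut.conj (q.out)⁻¹ σ)) =
        ((∑ q : G ⧸ K, LH (MulAut.conj (q.out)⁻¹ (u * σ))) - (∑ q : G ⧸ K, LH (MulAut.conj (q.out)⁻¹ u)) -
          (∑ q : G ⧸ K, LH (MulAut.conj (q.out)⁻¹ σ))) +
        ((∑ q : G ⧸ K, LH (MulAut.conj (q.out)⁻¹ (v * σ))) - (∑ q : G ⧸ K, LH (MulAut.conj (q.out)⁻¹ v)) -
          (∑ q : G ⧸ K, LH (MulAut.conj (q.out)⁻¹ σ)))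
      rw [← Finset.sum_sub_distrib, ← Finset.sum_sub_distrib, ← Finset.sum_sub_distrib, ← Finset.sum_sub_distrib,
        ← Finset.sum_sub_distrib, ← Finset.sum_sub_distrib, ← Finset.sum_add_distrib]
      apply Finset.sum_congr rfl
      intro q _
      set c := MulAut.conj (q.out)⁻¹ with hc
      have h1 : c u ∈ H := hle (hcK _ _ hu)
      have h2 : c v ∈ H := hle (hcK _ _ hv)
      have h3 : c σ ∈ H := hle (hcK _ _ (hpe s))
      have h4 := hL.add ⟨c σ, h3⟩ ⟨c u, h1⟩ ⟨c v, h2⟩ (Subtype.ext (by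
        show c u * c σ = c σ * c u
        rw [← map_mul, ← map_mul, hus.eq])) (Subtype.ext (by
        show c v * c σ = c σ * c v
        rw [← map_mul, ← map_mul, hvs.eq]))
      simp only [map_mul]
      rw [LHe _ (H.mul_mem (H.mul_mem h1 h2) h3), LHe _ (H.mul_mem h1 h2), LHe _ h3, LHe _ (H.mul_mem h1 h3),
        LHe _ h1, LHe _ (H.mul_mem h2 h3), LHe _ h2]
      exact h4
    set A := Subgroup.centralizer {s} with hA
    have hAc : ∀ g, g ∈ A ↔ Commute g s := by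
      intro g
      rw [hA, Subgroup.mem_centralizer_singleton_iff]
      exact Iff.rfl
    have hAσ : ∀ g, g ∈ A → Commute g σ := fun g hg => ((hAc g).mp hg).pow_right e
    let KA := K.subgroupOf A
    have hKA : ∀ u : KA, ((u : A) : G) ∈ K := fun u => u.2
    have hone : Bf 1 = 0 := by
      have := hBadd 1 K.one_mem 1 K.one_mem (Commute.one_left _) (Commute.one_left _)
      rw [mul_one] at this
      linarith
    let B : KA →* Multiplicative ℝ :=
      { toFun := fun u => Multiplicative.ofAdd (Bf ((u : A) : G))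
        map_one' := by
          show Multiplicative.ofAdd (Bf 1) = 1
          rw [hone]; rfl
        map_mul' := by
          intro u v
          show Multiplicative.ofAdd (Bf (((u : A) : G) * ((v : A) : G))) = _
          rw [hBadd _ (hKA u) _ (hKA v) (hAσ _ (u : A).2) (hAσ _ (v : A).2)]
          rfl }
    have key := inv_add KA B (by
      intro y u
      show Multiplicative.ofAdd (Bf ((y : G) * ((u : A) : G) * (y : G)⁻¹)) = Multiplicative.ofAdd (Bf ((u : A) : G))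
      congr 1
      show Lh ((y : G) * ((u : A) : G) * (y : G)⁻¹ * σ) - Lh ((y : G) * ((u : A) : G) * (y : G)⁻¹) - Lh σ =
        Lh (((u : A) : G) * σ) - Lh ((u : A) : G) - Lh σ
      have h1 : (y : G) * ((u : A) : G) * (y : G)⁻¹ * σ = (y : G) * (((u : A) : G) * σ) * (y : G)⁻¹ := by
        have h2 : Commute (y : G)⁻¹ σ := (hAσ _ y.2).inv_left
        rw [mul_assoc, h2.eq]
        simp only [mul_assoc]
      rw [h1, conjL _ _ (K.mul_mem (hKA u) (hpe s)), conjL _ _ (hKA u)]) e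
      (fun g => by
        show ((g : G)) ^ e ∈ K
        exact hpe _) ⟨g, (hAc g).mpr hg⟩ ⟨h, (hAc h).mpr hh⟩
    have key2 : Bf ((g * h) ^ e) = Bf (g ^ e) + Bf (h ^ e) := congrArg Multiplicative.toAdd key
    show Lh ((g * h * s) ^ e) - Lh ((g * h) ^ e) - Lh (s ^ e) =
      (Lh ((g * s) ^ e) - Lh (g ^ e) - Lh (s ^ e)) + (Lh ((h * s) ^ e) - Lh (h ^ e) - Lh (s ^ e))
    rw [hBf _ (hg.mul_left hh), hBf _ hg, hBf _ hh, key2]

end LibBD85
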